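import Pool.Agent.MP_bd94e8_al.H83A.SpecA
import Pool.Agent.MP_bd94e8_al.H83A.Kit

/-!
The number of summands of the quotient is bounded.
-/

set_option autoImplicit false
set_option linter.unusedSectionVars false

namespace Pool.Agent.MP_bd94e8_al.H83A

open Module Function IsLocalRing H83 H89

namespace Cnt2A

variable {C A : Type} [CommRing C] [IsArtinianRing C] [IsLocalRing C] [Ring A]
  [Algebra C A] [Module.Finite C A]

theorem card_le {T H : Type} [Fintype T] [AddCommGroup H] [Module C H] (η : T → H)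
    (h : ∀ c : T → C, Fintype.linearCombination C η c = 0 → ∀ s, c s ∈ maximalIdeal C) :
    (Fintype.card T : ℕ∞) ≤ length C H := by
  let Φ := Fintype.linearCombination C η
  let ρ : (T → C) →ₗ[C] (T → C ⧸ maximalIdeal C) :=
    LinearMap.pi fun s => (maximalIdeal C).mkQ ∘ₗ LinearMap.proj s
  have hρ : Surjective ρ := fun y => by
    choose x hx using fun s => (maximalIdeal C).mkQ_surjective (y s)
    exact ⟨x, funext hx⟩
  have hk : LinearMap.ker Φ ≤ LinearMap.ker ρ := fun x hx =>
    funext fun s => (Submodule.Quotient.mk_eq_zero _).2 (h x hx s)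
  have hs : Surjective ((LinearMap.ker Φ).liftQ ρ hk) := fun y => by
    obtain ⟨x, rfl⟩ := hρ y
    exact ⟨Submodule.Quotient.mk x, rfl⟩
  have a := (length_le_of_surjective _ hs).trans (Φ.quotKerEquivRange.length_eq.le.trans
    (length_le_of_injective _ (LinearMap.range Φ).injective_subtype))
  have : IsSimpleModule C (C ⧸ maximalIdeal C) :=
    isSimpleModule_iff_isCoatom.2 (Ideal.isMaximal_def.1 inferInstance)
  rwa [length_pi_of_fintype, Finset.sum_congr rfl fun _ _ => length_eq_one C _, Finset.sum_const,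
    Finset.card_univ, nsmul_one] at a

theorem key {M Y T : Type} [AddCommGroup M] [Module A M] [Module C M] [IsScalarTower C A M]
    [AddCommGroup Y] [Module A Y] [Nontrivial Y] [Fintype T] [DecidableEq T]
    (hM : Indec A M) (W : Submodule A M) {n : ℕ} (π : (Fin n → A) →ₗ[A] Y) (hπ : Surjective π)
    (ι : T → Y →ₗ[A] M ⧸ W) (pr : T → (M ⧸ W) →ₗ[A] Y) (h1 : ∀ s y, pr s (ι s y) = y)
    (h2 : ∀ s s', s ≠ s' → ∀ y, pr s (ι s' y) = 0) :
    (Fintype.card T : ℕ∞) ≤ length C (LinearMap.ker π →ₗ[A] W) ∨ length A M = length A Y := by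
  letI := modC C A Y
  have := towC C A Y
  have hp : ∀ s, ∃ p : (Fin n → A) →ₗ[A] M, W.mkQ ∘ₗ p = ι s ∘ₗ π := fun s =>
    Module.projective_lifting_property _ _ W.mkQ_surjective
  choose p hp using hp
  have hp' : ∀ s x, W.mkQ (p s x) = ι s (π x) := fun s x => LinearMap.congr_fun (hp s) x
  let η : T → LinearMap.ker π →ₗ[A] W := fun s =>
    (p s ∘ₗ (LinearMap.ker π).subtype).codRestrict W fun x => by
      rw [← Submodule.Quotient.mk_eq_zero, ← Submodule.mkQ_apply, LinearMap.comp_apply, hp',
        Submodule.subtype_apply, LinearMap.mem_ker.1 x.2, map_zero]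
  let Φ := Fintype.linearCombination C η
  by_cases h : ∀ c : T → C, Φ c = 0 → ∀ s, c s ∈ maximalIdeal C
  · left
    exact card_le η h
  · right
    push Not at h
    obtain ⟨c, hc, s0, hs0⟩ := h
    obtain ⟨v, hv⟩ := (notMem_maximalIdeal.1 hs0).exists_left_inv
    obtain ⟨t, ht⟩ := exists_desc hπ (∑ s, c s • p s) fun x hx => by
      have := congrArg Subtype.val (LinearMap.congr_fun hc ⟨x, hx⟩)
      simpa [Φ, η, Fintype.linearCombination_apply, LinearMap.sum_apply] using this
    have e : (v • (pr s0 ∘ₗ W.mkQ)) ∘ₗ t = LinearMap.id := by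
      refine LinearMap.ext fun y => ?_
      obtain ⟨x, rfl⟩ := hπ y
      have a : t (π x) = ∑ s, c s • p s x := by
        simpa [LinearMap.sum_apply] using LinearMap.congr_fun ht x
      have b : ∀ s, pr s0 (W.mkQ (c s • p s x)) = c s • pr s0 (ι s (π x)) := fun s => by
        rw [← algebraMap_smul A, map_smul, map_smul, hp', algebraMap_smul]
      rw [LinearMap.comp_apply, LinearMap.smul_apply, LinearMap.comp_apply, a, map_sum, map_sum,
        Finset.sum_congr rfl fun s _ => b s, Finset.sum_eq_single s0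
          (fun s _ hs => by rw [h2 s0 s hs.symm, smul_zero]) (by simp), h1, smul_smul, hv, one_smul,
        LinearMap.id_apply]
    exact (LinearEquiv.ofBijective t (hM.bij e).1).length_eq.symm

theorem cnt2 : SCnt := by
  intro C A _ _ _ _ _ _ m X _ _ hX c
  classical
  have : IsNoetherianRing A := IsNoetherianRing.of_finite C A
  have : IsArtinianRing A := IsArtinianRing.of_finite C A
  have hπ : ∀ i, ∃ (n : ℕ) (π : (Fin n → A) →ₗ[A] X i), Surjective π := fun i =>
    haveI := (hX i).1
    Module.Finite.exists_fin' A (X i)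
  choose n π hπ using hπ
  choose r hr using fun i => hom_bound (C := C) A (LinearMap.ker (π i))
  refine ⟨c + ∑ i, (r i * (c * len C A) + 1) * len A (X i), fun M _ _ _ hM W _ hW τ _ l ⟨e⟩ => ?_⟩
  letI := modC C A M
  have := towC C A M
  have hl : ∀ i, length A (X i) = len A (X i) := fun i =>
    haveI := (hX i).1
    len_cast.symm
  have hg : ∀ i j, j = i → Nonempty (X j ≃ₗ[A] X i) := by
    rintro i j rfl
    exact ⟨LinearEquiv.refl _ _⟩
  have k := fun i =>
    haveI := (hX i).2
    key (C := C) (T := {s // l s = i}) hM W (π i) (hπ i)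
      (fun s => e.symm.toLinearMap ∘ₗ LinearMap.single A (fun s => X (l s)) s.1 ∘ₗ
        (hg i _ s.2).some.symm.toLinearMap)
      (fun s => (hg i _ s.2).some.toLinearMap ∘ₗ LinearMap.proj s.1 ∘ₗ e.toLinearMap)
      (fun s y => by simp) fun s s' h y => by
        simp [Pi.single_eq_of_ne fun e' : s.1 = s'.1 => h (Subtype.ext e')]
  by_cases h : ∃ i, length A M = length A (X i)
  · obtain ⟨i, h⟩ := h
    rw [h, hl, Nat.cast_le]
    exact le_add_left ((Nat.le_mul_of_pos_left _ (Nat.succ_pos _)).trans
      (Finset.single_le_sum (f := fun i => (r i * (c * len C A) + 1) * len A (X i))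
        (fun _ _ => Nat.zero_le _) (Finset.mem_univ i)))
  push Not at h
  have k2 : ∀ i, Fintype.card {s // l s = i} ≤ r i * (c * len C A) + 1 := fun i => by
    have a := (k i).resolve_right (h i)
    rw [← len_cast, Nat.cast_le] at a
    exact Nat.le_succ_of_le (a.trans ((hr i W).trans (Nat.mul_le_mul_left _ (len_le_mul C W hW))))
  rw [len_sub_quot W, e.length_eq, length_pi_of_fintype, Nat.cast_add]
  refine add_le_add hW ?_
  rw [Finset.sum_congr rfl fun s _ => hl (l s), ← Nat.cast_sum, Nat.cast_le,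
    ← Finset.sum_fiberwise Finset.univ l]
  refine Finset.sum_le_sum fun i _ => ?_
  rw [Finset.sum_congr rfl fun s hs => by rw [(Finset.mem_filter.1 hs).2], Finset.sum_const,
    smul_eq_mul, ← Fintype.card_subtype]
  exact Nat.mul_le_mul_right _ (k2 i)

end Cnt2A

end Pool.Agent.MP_bd94e8_al.H83A
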