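import Pool.Agent.MP_bd94e8_al.H65B.Good1

/-!
Linearity and fullness of the blocks, second part: two vertices with three points.
-/

set_option autoImplicit false
set_option linter.unusedSectionVars false

namespace Pool.Agent.MP_bd94e8_al.H89

open Module Function

namespace GoodA

variable {k F : Type} [Field k] [Field F] [Algebra k F] {Pt ι : Type} [Fintype Pt]
  [DecidableEq Pt] {P : Prob k F Pt ι Unit} {ht : Pt → ℤ}

/-- The three points of a vertex, in increasing order. -/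
structure Three (P : Prob k F Pt ι Unit) (ht : Pt → ℤ) (i : ι) (a b c : Pt) : Prop where
  v1 : P.vt a = i
  v2 : P.vt b = i
  v3 : P.vt c = i
  l1 : ht a < ht b
  l2 : ht b < ht c
  all : ∀ p, P.vt p = i → p = a ∨ p = b ∨ p = c

theorem three_ex {i : ι} (h : Fl P i ht) (h3 : Le3 P.vt i) (t : Tri3 P.vt i) :
    ∃ a b c, Three P ht i a b c := by
  obtain ⟨p, q, r, hp, hq, hr, e1, e2, e3⟩ := t
  have all : ∀ s, P.vt s = i → s = p ∨ s = q ∨ s = r := fun s hs => by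
    have := h3 s p q r hs hp hq hr
    tauto
  have n1 : ht p ≠ ht q := fun e => e1 (h.inj _ _ hp hq e)
  have n2 : ht p ≠ ht r := fun e => e2 (h.inj _ _ hp hr e)
  have n3 : ht q ≠ ht r := fun e => e3 (h.inj _ _ hq hr e)
  rcases lt_or_gt_of_ne n1 with a | a <;> rcases lt_or_gt_of_ne n2 with b | b <;>
    rcases lt_or_gt_of_ne n3 with c | c
  · exact ⟨p, q, r, hp, hq, hr, a, c, all⟩
  · exact ⟨p, r, q, hp, hr, hq, b, c, fun s hs => by have := all s hs; tauto⟩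
  · omega
  · exact ⟨r, p, q, hr, hp, hq, b, a, fun s hs => by have := all s hs; tauto⟩
  · exact ⟨q, p, r, hq, hp, hr, a, b, fun s hs => by have := all s hs; tauto⟩
  · omega
  · exact ⟨q, r, p, hq, hr, hp, c, b, fun s hs => by have := all s hs; tauto⟩
  · exact ⟨r, q, p, hr, hq, hp, c, a, fun s hs => by have := all s hs; tauto⟩

theorem Three.lo {i : ι} {a b c : Pt} (t : Three P ht i a b c) {q p : Pt} (hp : P.vt p = i)
    (hq : P.vt q = i) (e : ht p < ht q) : (q = b ∧ p = a) ∨ (q = c ∧ p = a) ∨ (q = c ∧ p = b) := by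
  have l1 := t.l1
  have l2 := t.l2
  rcases t.all p hp with rfl | rfl | rfl <;> rcases t.all q hq with rfl | rfl | rfl <;>
    first | omega | simp

theorem Fl.sg {i : ι} (h : Fl P i ht) (h3 : Le3 P.vt i) {n : Matrix Pt Pt F} (hn : n ∈ P.H i i)
    (h0 : ∀ p, n p p = 0) {q p : Pt} (e : n q p ≠ 0)
    (o : ∀ q' p', n q' p' ≠ 0 → ¬ (q' = q ∧ p' = p) → ∀ c, Matrix.single q' p' c ∈ P.B) (c : F) :
    Matrix.single q p c ∈ P.B := by
  have h1 := single_of hn.1 q p o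
  have h2 := h.smul0 h3 (c * (n q p)⁻¹) (b := Matrix.single q p (n q p))
    ⟨h1, fun q' p' e' => by
      obtain ⟨rfl, rfl⟩ := single_ne e'
      exact hn.2 _ _ e⟩ fun s => by
      by_contra e'
      obtain ⟨rfl, rfl⟩ := single_ne e'
      exact e (h0 _)
  rwa [Matrix.smul_single, smul_eq_mul, mul_assoc, inv_mul_cancel₀ e, mul_one] at h2

/-- The special vertices. -/
def Sp (P : Prob k F Pt ι Unit) (i : ι) (a b c : Pt) : Prop :=
  ∀ n ∈ P.H i i, (∀ p, n p p = 0) → (n b a = 0 ↔ n c b = 0)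

theorem Fl.special {i : ι} {a b c : Pt} (h : Fl P i ht) (h3 : Le3 P.vt i) (t : Three P ht i a b c) :
    (∀ x : F, x • P.e i ∈ P.B) ∨ Sp P i a b c := by
  have l1 := t.l1
  have l2 := t.l2
  have s31 : ∀ x, Matrix.single c a x ∈ P.B := h.corner t.v1 t.v3
    (fun r hr => by rcases t.all r hr with rfl | rfl | rfl <;> omega)
    (fun r hr => by rcases t.all r hr with rfl | rfl | rfl <;> omega)
  have fin : (∀ x, Matrix.single b a x ∈ P.B) → (∀ x, Matrix.single c b x ∈ P.B) →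
      ∀ x : F, x • P.e i ∈ P.B := fun s21 s32 => h.untw_of fun q p hp hq e => by
    rcases t.lo hp hq e with ⟨rfl, rfl⟩ | ⟨rfl, rfl⟩ | ⟨rfl, rfl⟩
    exacts [s21, s31, s32]
  have g21 : ∀ n ∈ P.H i i, (∀ p, n p p = 0) → n b a ≠ 0 →
      (n c b ≠ 0 → ∀ x, Matrix.single c b x ∈ P.B) → ∀ x, Matrix.single b a x ∈ P.B := by
    intro n hn h0 e o
    refine h.sg h3 hn h0 e fun q p e1 e2 => ?_
    obtain ⟨u1, u2, u3⟩ := h.lo hn h0 _ _ e1
    rcases t.lo u1 u2 u3 with e3 | ⟨rfl, rfl⟩ | ⟨rfl, rfl⟩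
    exacts [(e2 e3).elim, s31, o e1]
  have g32 : ∀ n ∈ P.H i i, (∀ p, n p p = 0) → n c b ≠ 0 →
      (n b a ≠ 0 → ∀ x, Matrix.single b a x ∈ P.B) → ∀ x, Matrix.single c b x ∈ P.B := by
    intro n hn h0 e o
    refine h.sg h3 hn h0 e fun q p e1 e2 => ?_
    obtain ⟨u1, u2, u3⟩ := h.lo hn h0 _ _ e1
    rcases t.lo u1 u2 u3 with ⟨rfl, rfl⟩ | ⟨rfl, rfl⟩ | e3
    exacts [o e1, s31, (e2 e3).elim]
  by_cases sp : Sp P i a b c
  · exact .inr sp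
  left
  unfold Sp at sp
  push Not at sp
  obtain ⟨n, hn, h0, ⟨e1, e2⟩ | ⟨e1, e2⟩⟩ := sp
  · have s32 := g32 n hn h0 e2 fun e => (e e1).elim
    obtain ⟨z, hz, z1, z0⟩ := h.step' t.v1 t.v2 l1
    exact fin (g21 z hz z0 z1 fun _ => s32) s32
  · have s21 := g21 n hn h0 e1 fun e => (e e2).elim
    obtain ⟨z, hz, z1, z0⟩ := h.step' t.v2 t.v3 l2
    exact fin s21 (g32 z hz z0 z1 fun _ => s21)

theorem Sp.det {i : ι} {a b c : Pt} (s : Sp P i a b c) (h : Fl P i ht) (h3 : Le3 P.vt i)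
    {n m : Matrix Pt Pt F} (hn : n ∈ P.H i i) (n0 : ∀ p, n p p = 0) (hm : m ∈ P.H i i)
    (m0 : ∀ p, m p p = 0) : n b a * m c b = m b a * n c b := by
  have h1 : n b a • m - m b a • n ∈ P.H i i := by
    refine ⟨P.B.sub_mem (h.smul0 h3 _ hm m0) (h.smul0 h3 _ hn n0), fun q p e => ?_⟩
    by_cases e' : m q p = 0
    · exact hn.2 q p fun e'' => e (by simp [e', e''])
    · exact hm.2 q p e'
  have h2 := (s _ h1 fun p => by simp [n0, m0]).1 (by simp [mul_comm])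
  simpa [sub_eq_zero] using h2

/-- The arrows between the points of two vertices. -/
structure Ord2 (P : Prob k F Pt ι Unit) (ht : Pt → ℤ) (X Y : ι) : Prop where
  ne : X ≠ Y
  fx : Fl P X ht
  fy : Fl P Y ht
  tx : Le3 P.vt X
  ty : Le3 P.vt Y
  trans : ∀ p q r, P.vt p = X ∨ P.vt p = Y → P.vt q = X ∨ P.vt q = Y → P.vt r = X ∨ P.vt r = Y →
    P.Ar p q → P.Ar q r → P.Ar p r
  cmp : ∀ x y, P.vt x = X → P.vt y = Y → P.Ar x y ∨ P.Ar y x

theorem Ord2.symm {X Y : ι} (o : Ord2 P ht X Y) : Ord2 P ht Y X where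
  ne := o.ne.symm
  fx := o.fy
  fy := o.fx
  tx := o.ty
  ty := o.tx
  trans p q r hp hq hr := o.trans p q r hp.symm hq.symm hr.symm
  cmp y x hy hx := (o.cmp x y hx hy).symm

theorem Fl.ar {i : ι} (h : Fl P i ht) {p q : Pt} (hp : P.vt p = i) (hq : P.vt q = i)
    (e : ht p < ht q) : P.Ar p q := by
  obtain ⟨b, hb, e1, -⟩ := h.step p q hp hq e
  exact ⟨fun e' => by rw [e'] at e; omega, b, hb, e1⟩

theorem ar_of {i j : ι} (hij : i ≠ j) {b : Matrix Pt Pt F} (hb : b ∈ P.H i j) {q p : Pt}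
    (e : b q p ≠ 0) : P.Ar p q :=
  ⟨fun e' => hij ((hb.2 _ _ e).1.symm.trans (e' ▸ (hb.2 _ _ e).2)), b, hb.1, e⟩

theorem Ord2.asym {X Y : ι} (o : Ord2 P ht X Y) {x y : Pt} (hx : P.vt x = X) (hy : P.vt y = Y)
    (h : P.Ar x y) (h' : P.Ar y x) : False :=
  (o.trans x y x (.inl hx) (.inr hy) (.inl hx) h h').1 rfl

theorem Ord2.diag0 {X Y : ι} (o : Ord2 P ht X Y) {g g' : Matrix Pt Pt F} (hg : g ∈ P.H X Y)
    (hg' : g' ∈ P.H Y X) (u : Pt) : (g' * g) u u = 0 := by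
  by_contra e
  obtain ⟨s, s1, s2⟩ := mul_ne e
  exact o.asym (hg.2 _ _ s2).1 (hg.2 _ _ s2).2 (ar_of o.ne hg s2) (ar_of o.ne.symm hg' s1)

theorem Ord2.gapel {X Y : ι} (o : Ord2 P ht X Y) {x x' y : Pt} (hx : P.vt x = X)
    (hx' : P.vt x' = X) (hy : P.vt y = Y) (h1 : P.Ar x y) (h2 : P.Ar y x') :
    ∃ n ∈ P.H X X, (∀ p, n p p = 0) ∧ n x' x ≠ 0 ∧
      ∀ u' u, n u' u ≠ 0 → ∃ y', P.vt y' = Y ∧ P.Ar u y' ∧ P.Ar y' u' := by
  classical
  obtain ⟨ya, ha, hmin⟩ := (Finset.univ.filter fun r => P.vt r = Y ∧ P.Ar x r).exists_min_image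
    ht ⟨y, by simp [hy, h1]⟩
  obtain ⟨yb, hb, hmax⟩ := (Finset.univ.filter fun r => P.vt r = Y ∧ P.Ar r x').exists_max_image
    ht ⟨y, by simp [hy, h2]⟩
  simp only [Finset.mem_filter, Finset.mem_univ, true_and] at ha hb hmin hmax
  obtain ⟨g, hg, g1⟩ := ar_H ha.2
  obtain ⟨g', hg', g2⟩ := ar_H hb.2
  rw [hx, ha.1] at hg
  rw [hx', hb.1] at hg'
  obtain ⟨z, hz, z1, z2⟩ := o.fy.sharp' ha.1 hb.1 ((hmin y ⟨hy, h1⟩).trans (hmax y ⟨hy, h2⟩))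
  have hzg := mul_H hz hg
  refine ⟨g' * (z * g), mul_H hg' hzg, o.diag0 hzg hg', ?_, fun u' u e => ?_⟩
  · have k1 : ∀ s s', g' x' s ≠ 0 → z s s' ≠ 0 → g s' x ≠ 0 → s = yb ∧ s' = ya :=
      fun s s' a b c => z2 s s' b (hmin s' ⟨(hg.2 _ _ c).2, ar_of o.ne hg c⟩)
        (hmax s ⟨(hg'.2 _ _ a).1, ar_of o.ne.symm hg' a⟩)
    rw [mul_one_term yb fun s a b => by
      obtain ⟨s', b1, b2⟩ := mul_ne b
      exact (k1 s s' a b1 b2).1, mul_one_term ya fun s' b c => (k1 yb s' g2 b c).2]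
    exact mul_ne_zero g2 (mul_ne_zero z1 g1)
  · obtain ⟨s, s1, s2⟩ := mul_ne e
    exact ⟨s, (hg'.2 _ _ s1).1, ar_of o.ne hzg s2, ar_of o.ne.symm hg' s1⟩

theorem Ord2.gap {X Y : ι} (o : Ord2 P ht X Y) {a b c : Pt} (t : Three P ht X a b c)
    (s : Sp P X a b c) : (∃ y, P.vt y = Y ∧ P.Ar a y ∧ P.Ar y b) ↔
      ∃ y, P.vt y = Y ∧ P.Ar b y ∧ P.Ar y c := by
  constructor
  · rintro ⟨y, hy, h1, h2⟩
    obtain ⟨n, hn, n0, n1, n2⟩ := o.gapel t.v1 t.v2 hy h1 h2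
    exact n2 _ _ fun e => n1 ((s n hn n0).2 e)
  · rintro ⟨y, hy, h1, h2⟩
    obtain ⟨n, hn, n0, n1, n2⟩ := o.gapel t.v2 t.v3 hy h1 h2
    exact n2 _ _ fun e => n1 ((s n hn n0).1 e)

theorem comb9 (a11 a12 a13 a21 a22 a23 a31 a32 a33 : Prop) (r1 : a11 → a12)
    (r3 : a21 → a22) (r4 : a22 → a23) (r6 : a32 → a33) (c1 : a21 → a11)
    (c3 : a22 → a12) (c4 : a32 → a22) (c6 : a33 → a23)
    (gx : (a11 ∧ ¬ a21) ∨ (a12 ∧ ¬ a22) ∨ (a13 ∧ ¬ a23) ↔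
      (a21 ∧ ¬ a31) ∨ (a22 ∧ ¬ a32) ∨ (a23 ∧ ¬ a33))
    (gy : (¬ a11 ∧ a12) ∨ (¬ a21 ∧ a22) ∨ (¬ a31 ∧ a32) ↔
      (¬ a12 ∧ a13) ∨ (¬ a22 ∧ a23) ∨ (¬ a32 ∧ a33)) :
    a31 ∨ ¬ a13 ∨ (a11 ∧ ¬ a21 ∧ a22 ∧ ¬ a32 ∧ a33) ∨ (¬ a11 ∧ a12 ∧ ¬ a22 ∧ a23 ∧ ¬ a33) := by
  grind

theorem Ord2.full {X Y : ι} (o : Ord2 P ht X Y) {x y : Pt} (hx : P.vt x = X) (hy : P.vt y = Y)
    (top : ∀ s, P.vt s = X → ht s ≤ ht x) (bot : ∀ s, P.vt s = Y → ht y ≤ ht s) (h : P.Ar x y)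
    {m : Matrix Pt Pt F} (hm : P.In X Y m) : m ∈ P.B := by
  obtain ⟨g, hg, g1⟩ := ar_H h
  rw [hx, hy] at hg
  have key := span_tri (P := P) (fun q p => P.vt p = X ∧ P.vt q = Y) (fun q p => ht q - ht p) ?_
  · exact mem_of_single fun q p e => key q p (hm _ _ e) _
  rintro q p ⟨hp, hq⟩ c
  obtain ⟨zy, hzy, y1, y2⟩ := o.fy.sharp' hy hq (bot q hq)
  obtain ⟨zx, hzx, x1, x2⟩ := o.fx.sharp' hp hx (top p hp)
  have hw := mul_H hzy (mul_H hg hzx)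
  have w1 : ∀ q' p', (zy * (g * zx)) q' p' ≠ 0 → ht q ≤ ht q' ∧ ht p' ≤ ht p := by
    intro q' p' e
    obtain ⟨s, s1, s2⟩ := mul_ne e
    obtain ⟨r, r1, r2⟩ := mul_ne s2
    constructor
    · by_contra e'
      have := (y2 q' s s1 (bot s (hzy.2 _ _ s1).1) (by omega)).1
      rw [this] at e'
      exact e' le_rfl
    · by_contra e'
      have := (x2 r p' r2 (by omega) (top r (hzx.2 _ _ r2).2)).2
      rw [this] at e'
      exact e' le_rfl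
  have w2 : (zy * (g * zx)) q p ≠ 0 := by
    rw [mul_one_term y fun s s1 _ => (y2 q s s1 (bot s (hzy.2 _ _ s1).1) le_rfl).2,
      mul_one_term x fun r _ r2 => (x2 r p r2 le_rfl (top r (hzx.2 _ _ r2).2)).1]
    exact mul_ne_zero y1 (mul_ne_zero g1 x1)
  generalize zy * (g * zx) = w at hw w1 w2
  obtain ⟨v, hv, v1⟩ := o.fy.scal_mul (c * (w q p)⁻¹) hw
  have v2 : ∀ q' p', v q' p' ≠ c * (w q p)⁻¹ * w q' p' → ∃ s, w s p' ≠ 0 ∧ ht s < ht q' :=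
    fun q' p' e => v1 q' p' (by
      rw [Matrix.sub_apply, Matrix.smul_apply, smul_eq_mul]; exact sub_ne_zero.2 e)
  refine ⟨v, hv.1, ?_, fun q' p' e e' => ⟨hv.2 _ _ e, ?_⟩⟩
  · by_contra e
    obtain ⟨s, s1, s2⟩ := v2 q p (by rwa [mul_assoc, inv_mul_cancel₀ w2, mul_one])
    have := (w1 _ _ s1).1
    omega
  · by_cases e'' : v q' p' = c * (w q p)⁻¹ * w q' p'
    · rw [e''] at e
      have e3 := right_ne_zero_of_mul e
      obtain ⟨t1, t2⟩ := w1 _ _ e3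
      by_contra e4
      exact e' ⟨o.fy.inj _ _ (hw.2 _ _ e3).2 hq (by omega),
        o.fx.inj _ _ (hw.2 _ _ e3).1 hp (by omega)⟩
    · obtain ⟨s, s1, s2⟩ := v2 q' p' e''
      have := w1 _ _ s1
      omega

theorem Ord2.alt [FiniteDimensional k F] {X Y : ι} (o : Ord2 P ht X Y) {x1 x2 x3 y1 y2 y3 : Pt}
    (tx : Three P ht X x1 x2 x3) (ty : Three P ht Y y1 y2 y3) (sx : Sp P X x1 x2 x3)
    (sy : Sp P Y y1 y2 y3) (a1 : P.Ar x1 y1) (a2 : P.Ar y1 x2) (a3 : P.Ar x2 y2) (a4 : P.Ar y2 x3)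
    (a5 : P.Ar x3 y3) : ∃ W : Submodule k (Fin 3 → F),
      (∀ b ∈ P.B, (fun s => b (![y1, y2, y3] s) (![x1, x2, x3] s)) ∈ W) ∧
        finrank k W ≤ finrank k F := by
  have a6 : P.Ar x1 y2 := o.trans _ _ _ (.inl tx.v1) (.inr ty.v1) (.inr ty.v2) a1
    (o.fy.ar ty.v1 ty.v2 ty.l1)
  have a7 : P.Ar x2 y3 := o.trans _ _ _ (.inl tx.v2) (.inr ty.v2) (.inr ty.v3) a3
    (o.fy.ar ty.v2 ty.v3 ty.l2)
  obtain ⟨u, hu, u1⟩ := ar_H a2
  rw [ty.v1, tx.v2] at hu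
  obtain ⟨g0, hg0, g1⟩ := ar_H a1
  rw [tx.v1, ty.v1] at hg0
  have f1 : ∀ g : Matrix Pt Pt F, (u * g) x2 x1 = u x2 y1 * g y1 x1 := fun g =>
    mul_one_term _ fun s s1 _ => by
      have := ar_of o.ne.symm hu s1
      rcases ty.all s (hu.2 _ _ s1).1 with rfl | rfl | rfl
      exacts [rfl, (o.asym tx.v2 ty.v2 a3 this).elim, (o.asym tx.v2 ty.v3 a7 this).elim]
  have f2 : ∀ g ∈ P.H X Y, (u * g) x3 x2 = u x3 y2 * g y2 x2 := fun g hg =>
    mul_one_term _ fun s s1 s2 => by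
      have t1 := ar_of o.ne.symm hu s1
      have t2 := ar_of o.ne hg s2
      rcases ty.all s (hu.2 _ _ s1).1 with rfl | rfl | rfl
      exacts [(o.asym tx.v2 ty.v1 t2 a2).elim, rfl, (o.asym tx.v3 ty.v3 a5 t1).elim]
  have f3 : ∀ g ∈ P.H X Y, (g * u) y2 y1 = g y2 x2 * u x2 y1 := fun g hg =>
    mul_one_term _ fun s s1 s2 => by
      have t1 := ar_of o.ne hg s1
      have t2 := ar_of o.ne.symm hu s2
      rcases tx.all s (hg.2 _ _ s1).1 with rfl | rfl | rfl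
      exacts [(o.asym tx.v1 ty.v1 a1 t2).elim, rfl, (o.asym tx.v3 ty.v2 t1 a4).elim]
  have f4 : ∀ g : Matrix Pt Pt F, (g * u) y3 y2 = g y3 x3 * u x3 y2 := fun g =>
    mul_one_term _ fun s _ s2 => by
      have t2 := ar_of o.ne.symm hu s2
      rcases tx.all s (hu.2 _ _ s2).2 with rfl | rfl | rfl
      exacts [(o.asym tx.v1 ty.v2 a6 t2).elim, (o.asym tx.v2 ty.v2 a3 t2).elim, rfl]
  have n0 : u x3 y2 * g0 y2 x2 ≠ 0 := by
    rw [← f2 g0 hg0]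
    intro e
    have := (sx _ (mul_H hu hg0) (o.diag0 hg0 hu)).2 e
    rw [f1] at this
    exact mul_ne_zero u1 g1 this
  have u2 := left_ne_zero_of_mul n0
  have g2 := right_ne_zero_of_mul n0
  refine ⟨LinearMap.range ((LinearMap.toSpanSingleton F (Fin 3 → F)
    ![g0 y1 x1, g0 y2 x2, g0 y3 x3]).restrictScalars k), fun b hb => ?_,
    LinearMap.finrank_range_le _⟩
  have hg := P.blk_mem hb X Y
  have d1 := sx.det o.fx o.tx (mul_H hu hg) (o.diag0 hg hu) (mul_H hu hg0) (o.diag0 hg0 hu)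
  have d2 := sy.det o.fy o.ty (mul_H hg hu) (o.symm.diag0 hu hg) (mul_H hg0 hu)
    (o.symm.diag0 hu hg0)
  rw [f1, f1, f2 _ hg, f2 _ hg0, P.blk_pos b tx.v1 ty.v1, P.blk_pos b tx.v2 ty.v2] at d1
  rw [f4, f4, f3 _ hg, f3 _ hg0, P.blk_pos b tx.v3 ty.v3, P.blk_pos b tx.v2 ty.v2] at d2
  have e1 : b y1 x1 * g0 y2 x2 = g0 y1 x1 * b y2 x2 :=
    mul_left_cancel₀ (mul_ne_zero u1 u2) (by linear_combination d1)
  have e2 : b y2 x2 * g0 y3 x3 = g0 y2 x2 * b y3 x3 :=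
    mul_left_cancel₀ (mul_ne_zero u1 u2) (by linear_combination d2)
  have e3 : b y1 x1 * g0 y3 x3 = g0 y1 x1 * b y3 x3 :=
    mul_left_cancel₀ g2 (by linear_combination g0 y3 x3 * e1 + g0 y1 x1 * e2)
  refine ⟨b y1 x1 * (g0 y1 x1)⁻¹, funext fun s => ?_⟩
  fin_cases s
  · simp [g1]
  · simp only [LinearMap.restrictScalars_apply, LinearMap.toSpanSingleton_apply]
    simp
    field_simp
    linear_combination e1
  · simp only [LinearMap.restrictScalars_apply, LinearMap.toSpanSingleton_apply]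
    simp
    field_simp
    linear_combination e3

theorem Three.inj {i : ι} {a b c : Pt} (t : Three P ht i a b c) : Injective ![a, b, c] := by
  have l1 := t.l1
  have l2 := t.l2
  have n1 : a ≠ b := fun e => by rw [e] at l1; omega
  have n2 : b ≠ c := fun e => by rw [e] at l2; omega
  have n3 : a ≠ c := fun e => by rw [e] at l1; omega
  intro s s' e
  fin_cases s <;> fin_cases s' <;> simp_all [eq_comm]

theorem Ord2.noalt [FiniteDimensional k F] {val : Set ι} (h : No3 P val) {X Y : ι} (hX : X ∉ val)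
    (hY : Y ∉ val) (o : Ord2 P ht X Y) {x1 x2 x3 y1 y2 y3 : Pt}
    (tx : Three P ht X x1 x2 x3) (ty : Three P ht Y y1 y2 y3) (sx : Sp P X x1 x2 x3)
    (sy : Sp P Y y1 y2 y3) (a1 : P.Ar x1 y1) (a2 : P.Ar y1 x2) (a3 : P.Ar x2 y2) (a4 : P.Ar y2 x3)
    (a5 : P.Ar x3 y3) : False := by
  obtain ⟨W, h1, h2⟩ := o.alt tx ty sx sy a1 a2 a3 a4 a5
  refine absurd (h X Y ![x1, x2, x3] ![y1, y2, y3] o.ne hX hY tx.inj ty.inj (fun s => ?_)
    (fun s => ?_) (fun s => ?_) W h1) (not_lt.2 h2)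
  · fin_cases s
    exacts [tx.v1, tx.v2, tx.v3]
  · fin_cases s
    exacts [ty.v1, ty.v2, ty.v3]
  · fin_cases s
    exacts [o.asym tx.v1 ty.v1 a1, o.asym tx.v2 ty.v2 a3, o.asym tx.v3 ty.v3 a5]

theorem Three.ex {i : ι} {a b c : Pt} (t : Three P ht i a b c) (f : Pt → Prop) :
    (∃ y, P.vt y = i ∧ f y) ↔ f a ∨ f b ∨ f c := by
  constructor
  · rintro ⟨y, hy, h⟩
    rcases t.all y hy with rfl | rfl | rfl
    exacts [.inl h, .inr (.inl h), .inr (.inr h)]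
  · rintro (h | h | h)
    exacts [⟨a, t.v1, h⟩, ⟨b, t.v2, h⟩, ⟨c, t.v3, h⟩]

theorem Ord2.smul [FiniteDimensional k F] {val : Set ι} (h : No3 P val) {X Y : ι} (hX : X ∉ val)
    (hY : Y ∉ val) (o : Ord2 P ht X Y) {x1 x2 x3 y1 y2 y3 : Pt}
    (tx : Three P ht X x1 x2 x3) (ty : Three P ht Y y1 y2 y3) (sx : Sp P X x1 x2 x3)
    (sy : Sp P Y y1 y2 y3) (c : F) {b : Matrix Pt Pt F} (hb : b ∈ P.H X Y) : c • b ∈ P.B := by
  have iff : ∀ {x y}, P.vt x = X → P.vt y = Y → (P.Ar y x ↔ ¬ P.Ar x y) := fun hx hy =>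
    ⟨fun a a' => o.asym hx hy a' a, fun a => (o.cmp _ _ hx hy).resolve_left a⟩
  have R : ∀ {x y y'}, P.vt x = X → P.vt y = Y → P.vt y' = Y → ht y < ht y' → P.Ar x y →
      P.Ar x y' := fun hx hy hy' e a =>
    o.trans _ _ _ (.inl hx) (.inr hy) (.inr hy') a (o.fy.ar hy hy' e)
  have C : ∀ {x x' y}, P.vt x = X → P.vt x' = X → P.vt y = Y → ht x < ht x' → P.Ar x' y →
      P.Ar x y := fun hx hx' hy e a =>
    o.trans _ _ _ (.inl hx) (.inl hx') (.inr hy) (o.fx.ar hx hx' e) a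
  have gx := o.gap tx sx
  have gy := o.symm.gap ty sy
  rw [ty.ex, ty.ex, iff tx.v2 ty.v1, iff tx.v2 ty.v2, iff tx.v2 ty.v3, iff tx.v3 ty.v1,
    iff tx.v3 ty.v2, iff tx.v3 ty.v3] at gx
  rw [tx.ex, tx.ex, iff tx.v1 ty.v1, iff tx.v2 ty.v1, iff tx.v3 ty.v1, iff tx.v1 ty.v2,
    iff tx.v2 ty.v2, iff tx.v3 ty.v2] at gy
  have l1 := tx.l1
  have l2 := tx.l2
  have l3 := ty.l1
  have l4 := ty.l2
  rcases comb9 _ _ _ _ _ _ _ _ _ (R tx.v1 ty.v1 ty.v2 l3) (R tx.v2 ty.v1 ty.v2 l3)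
    (R tx.v2 ty.v2 ty.v3 l4) (R tx.v3 ty.v2 ty.v3 l4) (C tx.v1 tx.v2 ty.v1 l1)
    (C tx.v1 tx.v2 ty.v2 l1) (C tx.v2 tx.v3 ty.v2 l2) (C tx.v2 tx.v3 ty.v3 l2) gx gy with
    a | a | ⟨a1, a2, a3, a4, a5⟩ | ⟨a1, a2, a3, a4, a5⟩
  · refine o.full tx.v3 ty.v1 (fun r hr => ?_) (fun r hr => ?_) a fun q p e =>
      hb.2 q p fun e' => e (by simp [e'])
    · rcases tx.all r hr with rfl | rfl | rfl <;> omega
    · rcases ty.all r hr with rfl | rfl | rfl <;> omega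
  · have : b = 0 := by
      ext q p
      by_contra e
      obtain ⟨hp, hq⟩ := hb.2 _ _ e
      have a1 := ar_of o.ne hb e
      have a2 : P.Ar x1 q := by
        rcases tx.all p hp with rfl | rfl | rfl
        exacts [a1, C tx.v1 hp hq l1 a1, C tx.v1 hp hq (by omega) a1]
      apply a
      rcases ty.all q hq with rfl | rfl | rfl
      exacts [R tx.v1 hq ty.v3 (by omega) a2, R tx.v1 hq ty.v3 l4 a2, a2]
    rw [this, smul_zero]
    exact P.B.zero_mem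
  · exact (o.noalt h hX hY tx ty sx sy a1 ((iff tx.v2 ty.v1).2 a2) a3 ((iff tx.v3 ty.v2).2 a4)
      a5).elim
  · exact (o.symm.noalt h hY hX ty tx sy sx ((iff tx.v1 ty.v1).2 a1) a2 ((iff tx.v2 ty.v2).2 a3) a4
      ((iff tx.v3 ty.v3).2 a5)).elim

end GoodA

open GoodA in
theorem good : SOrd → SGood := by
  intro hO k F _ _ _ _ Pt ι _ _ P val ht hF hT h3
  obtain ⟨-, tr⟩ := hO k F Pt ι P val ht hF
  have left : ∀ {i j} (c : F) {b}, b ∈ P.H i j → c • P.e j ∈ P.B → c • b ∈ P.B := by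
    intro i j c b hb h
    have := P.B.mul_mem h hb.1
    rwa [Matrix.smul_mul, e_mul hb.2] at this
  have right : ∀ {i j} (c : F) {b}, b ∈ P.H i j → c • P.e i ∈ P.B → c • b ∈ P.B := by
    intro i j c b hb h
    have := P.B.mul_mem hb.1 h
    rwa [Matrix.mul_smul, mul_e hb.2] at this
  refine ⟨fun i j hij hv c b hb => ?_,
    fun i hi c b hb h0 => (fl_of hF hi).smul0 (hF.three i hi) c hb h0,
    fun z hz j hj b hb c hc => (fl_of hF hj).fullc (hF.row z hz) hb hc,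
    fun z hz j hj b hb c hc => (fl_of hF hj).fullr (hF.col z hz) hb hc,
    fun i hi t c => (fl_of hF hi).untw t c⟩
  by_cases hi : i ∈ val
  · have hj : j ∉ val := fun e => hv ⟨hi, e⟩
    have := (fl_of hF hj).fullc (hF.row i hi) hb (smul_e_In i c)
    rwa [Matrix.mul_smul, mul_e hb.2] at this
  by_cases hj : j ∈ val
  · have := (fl_of hF hi).fullr (hF.col j hj) hb (smul_e_In j c)
    rwa [Matrix.smul_mul, e_mul hb.2] at this
  have fi := fl_of hF hi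
  have fj := fl_of hF hj
  by_cases ti : Tri3 P.vt i
  swap
  · exact right c hb (fi.untw ti c)
  by_cases tj : Tri3 P.vt j
  swap
  · exact left c hb (fj.untw tj c)
  obtain ⟨x1, x2, x3, tx⟩ := three_ex fi (hF.three i hi) ti
  obtain ⟨y1, y2, y3, ty⟩ := three_ex fj (hF.three j hj) tj
  rcases fi.special (hF.three i hi) tx with sx | sx
  · exact right c hb (sx c)
  rcases fj.special (hF.three j hj) ty with sy | sy
  · exact left c hb (sy c)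
  have nv : ∀ {p}, P.vt p = i ∨ P.vt p = j → P.vt p ∉ val := by
    rintro p (e | e) <;> rwa [e]
  refine Ord2.smul h3 hi hj ⟨hij, fi, fj, hF.three i hi, hF.three j hj,
    fun p q r hp hq hr => tr p q r (nv hp) (nv hq) (nv hr), fun x y hx hy => ?_⟩ tx ty sx sy c hb
  by_contra e
  push Not at e
  refine hT 0 (fun _ => y) (fun _ => x) (by rwa [hx]) (by rwa [hy]) (by rwa [hx]) (by rwa [hy])
    (fun _ _ => ⟨rfl, fun e' => hij ?_, e.1, e.2⟩) fun m h1 h2 => by omega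
  rw [← hx, ← hy]
  exact congrArg P.vt e'

end Pool.Agent.MP_bd94e8_al.H89
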