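import Pool.Agent.MP_bd94e8_al.H89.Spec

/-!
Linearity and fullness of the blocks, first part: one vertex with a flag.
-/

set_option autoImplicit false
set_option linter.unusedSectionVars false

namespace Pool.Agent.MP_bd94e8_al.H89

open Module Function

namespace GoodA

variable {k F : Type} [Field k] [Field F] [Algebra k F] {Pt ι : Type} [Fintype Pt]
  [DecidableEq Pt]

theorem mul_ne {a b : Matrix Pt Pt F} {q p : Pt} (h : (a * b) q p ≠ 0) :
    ∃ s, a q s ≠ 0 ∧ b s p ≠ 0 := by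
  rw [Matrix.mul_apply] at h
  obtain ⟨s, -, hs⟩ := Finset.exists_ne_zero_of_sum_ne_zero h
  exact ⟨s, left_ne_zero_of_mul hs, right_ne_zero_of_mul hs⟩

theorem mul_one_term {a b : Matrix Pt Pt F} {q p : Pt} (s0 : Pt)
    (h : ∀ s, a q s ≠ 0 → b s p ≠ 0 → s = s0) : (a * b) q p = a q s0 * b s0 p := by
  rw [Matrix.mul_apply]
  refine Finset.sum_eq_single s0 (fun s _ hs => ?_) (by simp)
  by_contra e
  exact hs (h s (left_ne_zero_of_mul e) (right_ne_zero_of_mul e))

theorem single_ne {q p q' p' : Pt} {c : F} (h : Matrix.single q p c q' p' ≠ 0) :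
    q' = q ∧ p' = p := by
  by_contra e
  exact h (Matrix.single_apply_of_ne _ _ _ _ _ fun e' => e ⟨e'.1.symm, e'.2.symm⟩)

variable {P : Prob k F Pt ι Unit}

theorem mem_of_single {m : Matrix Pt Pt F}
    (h : ∀ q p, m q p ≠ 0 → Matrix.single q p (m q p) ∈ P.B) : m ∈ P.B := by
  rw [Matrix.matrix_eq_sum_single m]
  refine P.B.sum_mem fun q _ => P.B.sum_mem fun p _ => ?_
  by_cases e : m q p = 0
  · rw [e, Matrix.single_zero]; exact P.B.zero_mem
  · exact h q p e

theorem single_of {m : Matrix Pt Pt F} (hm : m ∈ P.B) (q p : Pt)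
    (h : ∀ q' p', m q' p' ≠ 0 → ¬ (q' = q ∧ p' = p) → ∀ c, Matrix.single q' p' c ∈ P.B) :
    Matrix.single q p (m q p) ∈ P.B := by
  have h1 : m - Matrix.single q p (m q p) ∈ P.B := by
    refine mem_of_single fun q' p' e => ?_
    by_cases e' : q' = q ∧ p' = p
    · obtain ⟨rfl, rfl⟩ := e'
      simp at e
    · refine h q' p' ?_ e' _
      rwa [Matrix.sub_apply, Matrix.single_apply_of_ne _ _ _ _ _
        (fun e'' => e' ⟨e''.1.symm, e''.2.symm⟩), sub_zero] at e
  simpa using P.B.sub_mem hm h1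

/-- Triangular spanning. -/
theorem span_tri (A : Pt → Pt → Prop) (d : Pt → Pt → ℤ)
    (h : ∀ q p, A q p → ∀ c, ∃ s ∈ P.B, s q p = c ∧
      ∀ q' p', s q' p' ≠ 0 → ¬ (q' = q ∧ p' = p) → A q' p' ∧ d q p < d q' p') :
    ∀ q p, A q p → ∀ c, Matrix.single q p c ∈ P.B := by
  have wf : WellFounded fun a b : Pt × Pt => d b.1 b.2 < d a.1 a.2 := by
    have : IsTrans (Pt × Pt) fun a b : Pt × Pt => d b.1 b.2 < d a.1 a.2 :=
      ⟨fun _ _ _ h1 h2 => h2.trans h1⟩
    have : Std.Irrefl fun a b : Pt × Pt => d b.1 b.2 < d a.1 a.2 := ⟨fun _ => lt_irrefl _⟩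
    exact Finite.wellFounded_of_trans_of_irrefl _
  have key : ∀ a : Pt × Pt, A a.1 a.2 → ∀ c, Matrix.single a.1 a.2 c ∈ P.B := by
    intro a
    induction a using wf.induction with
    | _ a ih =>
      intro ha c
      obtain ⟨s, hs, e, h2⟩ := h a.1 a.2 ha c
      rw [← e]
      refine single_of hs _ _ fun q' p' e1 e2 c' => ?_
      exact ih (q', p') (h2 q' p' e1 e2).2 (h2 q' p' e1 e2).1 c'
  exact fun q p => key (q, p)

theorem mul_In {i j l : ι} {a b : Matrix Pt Pt F} (ha : P.In j l a) (hb : P.In i j b) :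
    P.In i l (a * b) := fun q p h => by
  obtain ⟨s, h1, h2⟩ := mul_ne h
  exact ⟨(hb _ _ h2).1, (ha _ _ h1).2⟩

theorem mul_H {i j l : ι} {a b : Matrix Pt Pt F} (ha : a ∈ P.H j l) (hb : b ∈ P.H i j) :
    a * b ∈ P.H i l := ⟨P.B.mul_mem ha.1 hb.1, mul_In ha.2 hb.2⟩

theorem e_ne {i : ι} {q p : Pt} (h : P.e i q p ≠ 0) : q = p ∧ P.vt p = i := by
  constructor
  · by_contra e; exact h (P.e_off i e)
  · by_contra e; exact h (P.e_neg q e)

theorem e_self {i : ι} {p : Pt} (h : P.vt p = i) : P.e i p p = 1 := by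
  rw [P.e_pos p h, Matrix.one_apply_eq]

theorem e_H (i : ι) : P.e i ∈ P.H i i :=
  ⟨P.e_mem i, fun q p h => ⟨(e_ne h).2, by rw [(e_ne h).1]; exact (e_ne h).2⟩⟩

theorem e_mul {i j : ι} {b : Matrix Pt Pt F} (hb : P.In i j b) : P.e j * b = b := by
  ext q p
  rw [mul_one_term q fun s h _ => (e_ne h).1.symm]
  by_cases e : b q p = 0
  · rw [e, mul_zero]
  · rw [e_self (hb _ _ e).2, one_mul]

theorem mul_e {i j : ι} {b : Matrix Pt Pt F} (hb : P.In i j b) : b * P.e i = b := by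
  ext q p
  rw [mul_one_term p fun s _ h => (e_ne h).1]
  by_cases e : b q p = 0
  · rw [e, zero_mul]
  · rw [e_self (hb _ _ e).1, mul_one]

theorem smul_e_In (i : ι) (c : F) : P.In i i (c • P.e i) := fun q p h =>
  (e_H i).2 q p fun e => h (by simp [e])

theorem ar_H {p q : Pt} (h : P.Ar p q) : ∃ b ∈ P.H (P.vt p) (P.vt q), b q p ≠ 0 := by
  obtain ⟨-, b, hb, e⟩ := h
  exact ⟨_, P.blk_mem hb _ _, by rwa [P.blk_pos b rfl rfl]⟩

/-- The part of the flag structure that concerns one vertex, with integer heights. -/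
structure Fl (P : Prob k F Pt ι Unit) (i : ι) (ht : Pt → ℤ) : Prop where
  inj : ∀ p q, P.vt p = i → P.vt q = i → ht p = ht q → p = q
  tri : ∀ b ∈ P.B, ∀ q p, P.vt p = i → P.vt q = i → b q p ≠ 0 → ht p ≤ ht q
  diag : ∀ b ∈ P.B, ∀ p q, P.vt p = i → P.vt q = i → b p p = b q q
  onto : ∀ p, P.vt p = i → ∀ c : F, ∃ b ∈ P.B, b p p = c
  step : ∀ p q, P.vt p = i → P.vt q = i → ht p < ht q → ∃ b ∈ P.B, b q p ≠ 0 ∧ b p p = 0

theorem fl_of {val : Set ι} {ht : Pt → ℕ} (h : Flag P val ht) {i : ι} (hi : i ∉ val) :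
    Fl P i fun p => (ht p : ℤ) where
  inj p q hp hq e := h.inj p q (hp.trans hq.symm) (hp ▸ hi) (by exact_mod_cast e)
  tri b hb q p hp hq e := by exact_mod_cast h.tri b hb q p (hq.trans hp.symm) (hp ▸ hi) e
  diag b hb p q hp hq := h.diag b hb p q (hp.trans hq.symm) (hp ▸ hi)
  onto p hp c := h.onto p (hp ▸ hi) c
  step p q hp hq e := h.step p q (hp.trans hq.symm) (hp ▸ hi) (by exact_mod_cast e)

/-- Strictly lower triangular matrices on a vertex. -/
def Lo (P : Prob k F Pt ι Unit) (i : ι) (ht : Pt → ℤ) (n : Matrix Pt Pt F) : Prop :=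
  ∀ q p, n q p ≠ 0 → P.vt p = i ∧ P.vt q = i ∧ ht p < ht q

variable {i : ι} {ht : Pt → ℤ}

theorem Fl.lo (h : Fl P i ht) {b : Matrix Pt Pt F} (hb : b ∈ P.H i i) (h0 : ∀ p, b p p = 0) :
    Lo P i ht b := fun q p e => by
  obtain ⟨hp, hq⟩ := hb.2 q p e
  refine ⟨hp, hq, lt_of_le_of_ne (h.tri b hb.1 q p hp hq e) fun e' => ?_⟩
  obtain rfl := h.inj p q hp hq e'
  exact e (h0 _)

theorem Fl.step' (h : Fl P i ht) {p q : Pt} (hp : P.vt p = i) (hq : P.vt q = i)
    (e : ht p < ht q) : ∃ b ∈ P.H i i, b q p ≠ 0 ∧ ∀ s, b s s = 0 := by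
  obtain ⟨b, hb, h1, h2⟩ := h.step p q hp hq e
  refine ⟨_, P.blk_mem hb i i, by rwa [P.blk_pos b hp hq], fun s => ?_⟩
  by_cases hs : P.vt s = i
  · rw [P.blk_pos b hs hs, h.diag b hb s p hs hp, h2]
  · exact P.blk_neg b fun e' => hs e'.1

theorem Fl.scal (h : Fl P i ht) (c : F) : ∃ g ∈ P.H i i, Lo P i ht (g - c • P.e i) := by
  by_cases ex : ∃ p, P.vt p = i
  · obtain ⟨p0, hp0⟩ := ex
    obtain ⟨b, hb, e0⟩ := h.onto p0 hp0 c
    have hg := P.blk_mem hb i i
    refine ⟨_, hg, fun q p e => ?_⟩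
    by_cases hqp : q = p
    · subst hqp
      exfalso
      apply e
      by_cases hq : P.vt q = i
      · rw [Matrix.sub_apply, P.blk_pos b hq hq, h.diag b hb q p0 hq hp0, e0, Matrix.smul_apply,
          e_self hq]
        simp
      · rw [Matrix.sub_apply, P.blk_neg b fun e' => hq e'.1, Matrix.smul_apply, P.e_neg _ hq]
        simp
    · rw [Matrix.sub_apply, Matrix.smul_apply, P.e_off i hqp, smul_zero, sub_zero] at e
      obtain ⟨hp, hq⟩ := hg.2 q p e
      refine ⟨hp, hq, lt_of_le_of_ne (h.tri _ hg.1 q p hp hq e) fun e' => ?_⟩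
      exact hqp (h.inj p q hp hq e').symm
  · refine ⟨0, Submodule.zero_mem _, fun q p e => ?_⟩
    exfalso
    apply e
    rw [Matrix.sub_apply, Matrix.smul_apply, P.e_neg _ fun e' => ex ⟨p, e'⟩]
    simp

/-- Scalar multiplication up to lower rows. -/
theorem Fl.scal_mul (h : Fl P i ht) (c : F) {j : ι} {b : Matrix Pt Pt F} (hb : b ∈ P.H j i) :
    ∃ b' ∈ P.H j i, ∀ q p, (b' - c • b) q p ≠ 0 → ∃ s, b s p ≠ 0 ∧ ht s < ht q := by
  obtain ⟨g, hg, hl⟩ := h.scal c
  refine ⟨g * b, mul_H hg hb, fun q p e => ?_⟩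
  have : g * b - c • b = (g - c • P.e i) * b := by
    rw [Matrix.sub_mul, Matrix.smul_mul, e_mul hb.2]
  rw [this] at e
  obtain ⟨s, h1, h2⟩ := mul_ne e
  exact ⟨s, h2, (hl _ _ h1).2.2⟩

/-- An element with a sharp entry. -/
theorem Fl.sharp (h : Fl P i ht) {q : Pt} (hq : P.vt q = i) : ∀ (n : ℕ) (p : Pt), P.vt p = i →
    ht p ≤ ht q → ht q - ht p ≤ n → ∃ z ∈ P.H i i, z q p ≠ 0 ∧
      ∀ q' p', z q' p' ≠ 0 → ht p ≤ ht p' → ht q' ≤ ht q → q' = q ∧ p' = p := by
  classical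
  have base : ∀ p : Pt, P.vt p = i → ht p = ht q → ∃ z ∈ P.H i i, z q p ≠ 0 ∧
      ∀ q' p', z q' p' ≠ 0 → ht p ≤ ht p' → ht q' ≤ ht q → q' = q ∧ p' = p := by
    intro p hp e
    obtain rfl := h.inj p q hp hq e
    refine ⟨P.e i, e_H i, by rw [e_self hp]; exact one_ne_zero, fun q' p' e1 e2 e3 => ?_⟩
    obtain ⟨rfl, e4⟩ := e_ne e1
    have := h.inj q' p e4 hp (le_antisymm e3 e2)
    exact ⟨this, this⟩
  intro n
  induction n with
  | zero => intro p hp e1 e2; exact base p hp (by push_cast at e2; omega)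
  | succ n ih =>
    intro p hp e1 e2
    rcases eq_or_lt_of_le e1 with e | e
    · exact base p hp e
    obtain ⟨r, hr, hmin⟩ := (Finset.univ.filter fun r => P.vt r = i ∧ ht p < ht r).exists_min_image
      ht ⟨q, by simp [hq, e]⟩
    simp only [Finset.mem_filter, Finset.mem_univ, true_and] at hr hmin
    obtain ⟨z1, hz1, a1, a2⟩ := h.step' hp hr.1 hr.2
    have l1 := h.lo hz1 a2
    obtain ⟨z2, hz2, b1, b2⟩ := ih r hr.1 (hmin q ⟨hq, e⟩) (by push_cast at e2; omega)
    refine ⟨z2 * z1, mul_H hz2 hz1, ?_, fun q' p' e3 e4 e5 => ?_⟩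
    · rw [mul_one_term r fun s s1 s2 =>
        (b2 q s s1 (hmin s ⟨(l1 _ _ s2).2.1, (l1 _ _ s2).2.2⟩) le_rfl).2]
      exact mul_ne_zero b1 a1
    · obtain ⟨s, s1, s2⟩ := mul_ne e3
      obtain ⟨t1, t2, t3⟩ := l1 _ _ s2
      obtain ⟨u1, u2⟩ := b2 q' s s1 (hmin s ⟨t2, by omega⟩) e5
      refine ⟨u1, h.inj _ _ t1 hp ?_⟩
      by_contra e6
      have := hmin p' ⟨t1, by omega⟩
      rw [u2] at t3
      omega

theorem Fl.sharp' (h : Fl P i ht) {p q : Pt} (hp : P.vt p = i) (hq : P.vt q = i)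
    (e : ht p ≤ ht q) : ∃ z ∈ P.H i i, z q p ≠ 0 ∧
      ∀ q' p', z q' p' ≠ 0 → ht p ≤ ht p' → ht q' ≤ ht q → q' = q ∧ p' = p :=
  h.sharp hq (ht q - ht p).toNat p hp e (Int.self_le_toNat _)

/-- The corner entry is full. -/
theorem Fl.corner (h : Fl P i ht) {p q : Pt} (hp : P.vt p = i) (hq : P.vt q = i)
    (lo : ∀ s, P.vt s = i → ht p ≤ ht s) (hi : ∀ s, P.vt s = i → ht s ≤ ht q) (c : F) :
    Matrix.single q p c ∈ P.B := by
  obtain ⟨z, hz, a1, a2⟩ := h.sharp' hp hq (lo q hq)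
  have a3 : ∀ q' p', z q' p' ≠ 0 → q' = q ∧ p' = p := fun q' p' e =>
    a2 q' p' e (lo _ (hz.2 _ _ e).1) (hi _ (hz.2 _ _ e).2)
  obtain ⟨b', hb', a4⟩ := h.scal_mul (c * (z q p)⁻¹) hz
  have a5 : ∀ q' p', b' q' p' = c * (z q p)⁻¹ * z q' p' := by
    intro q' p'
    by_contra e
    have e' : (b' - (c * (z q p)⁻¹) • z) q' p' ≠ 0 := by
      rw [Matrix.sub_apply, Matrix.smul_apply, smul_eq_mul]; exact sub_ne_zero.2 e
    obtain ⟨s, s1, s2⟩ := a4 q' p' e'
    rw [(a3 _ _ s1).1] at s2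
    have hq' : P.vt q' = i := by
      by_contra e''
      apply e
      have t1 : b' q' p' = 0 := by by_contra t; exact e'' (hb'.2 _ _ t).2
      have t2 : z q' p' = 0 := by by_contra t; exact e'' (hz.2 _ _ t).2
      rw [t1, t2, mul_zero]
    exact absurd (hi q' hq') (by omega)
  have : Matrix.single q p c = b' := by
    ext q' p'
    rw [a5]
    by_cases e : q = q' ∧ p = p'
    · obtain ⟨rfl, rfl⟩ := e
      rw [Matrix.single_apply_same, mul_assoc, inv_mul_cancel₀ a1, mul_one]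
    · rw [Matrix.single_apply_of_ne _ _ _ _ _ e]
      have : z q' p' = 0 := by
        by_contra t
        exact e ⟨(a3 _ _ t).1.symm, (a3 _ _ t).2.symm⟩
      rw [this, mul_zero]
  rw [this]
  exact hb'.1

theorem Fl.smul0 (h : Fl P i ht) (h3 : Le3 P.vt i) (c : F) {b : Matrix Pt Pt F}
    (hb : b ∈ P.H i i) (h0 : ∀ p, b p p = 0) : c • b ∈ P.B := by
  obtain ⟨b', hb', a⟩ := h.scal_mul c hb
  have l := h.lo hb h0
  have : b' - c • b ∈ P.B := by
    refine mem_of_single fun q p e => ?_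
    obtain ⟨s, s1, s2⟩ := a q p e
    obtain ⟨t1, t2, t3⟩ := l _ _ s1
    have hq : P.vt q = i := by
      by_contra e''
      apply e
      have t1 : b' q p = 0 := by by_contra t; exact e'' (hb'.2 _ _ t).2
      have t2 : b q p = 0 := by by_contra t; exact e'' (hb.2 _ _ t).2
      simp [t1, t2]
    have all : ∀ r, P.vt r = i → r = p ∨ r = s ∨ r = q := by
      intro r hr
      rcases h3 r p s q hr t1 t2 hq with e | e | e | e | e | e
      · exact .inl e
      · exact .inr (.inl e)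
      · exact .inr (.inr e)
      · rw [e] at t3; omega
      · rw [e] at t3; omega
      · rw [e] at s2; omega
    refine h.corner t1 hq (fun r hr => ?_) (fun r hr => ?_) _
    · rcases all r hr with rfl | rfl | rfl <;> omega
    · rcases all r hr with rfl | rfl | rfl <;> omega
  simpa using P.B.sub_mem hb'.1 this

theorem Fl.untw_of (h : Fl P i ht)
    (hs : ∀ q p, P.vt p = i → P.vt q = i → ht p < ht q → ∀ c, Matrix.single q p c ∈ P.B) (c : F) :
    c • P.e i ∈ P.B := by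
  obtain ⟨g, hg, l⟩ := h.scal c
  have : g - c • P.e i ∈ P.B :=
    mem_of_single fun q p e => hs q p (l _ _ e).1 (l _ _ e).2.1 (l _ _ e).2.2 _
  simpa using P.B.sub_mem hg.1 this

theorem Fl.untw (h : Fl P i ht) (h3 : ¬ Tri3 P.vt i) (c : F) : c • P.e i ∈ P.B := by
  refine h.untw_of (fun q p hp hq e c => ?_) c
  have all : ∀ r, P.vt r = i → r = p ∨ r = q := by
    intro r hr
    by_contra e'
    push Not at e'
    exact h3 ⟨r, p, q, hr, hp, hq, e'.1, e'.2, fun e'' => by rw [e''] at e; omega⟩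
  refine h.corner hp hq (fun r hr => ?_) (fun r hr => ?_) _
  · rcases all r hr with rfl | rfl <;> omega
  · rcases all r hr with rfl | rfl <;> omega

/-- Fullness of the blocks from a vertex with simple rows. -/
theorem Fl.fullc (h : Fl P i ht) {z : ι} (hz : RowSimple P z) {b : Matrix Pt Pt F}
    (hb : b ∈ P.H z i) {c : Matrix Pt Pt F} (hc : P.In z z c) : b * c ∈ P.B := by
  classical
  by_cases b0 : b = 0
  · rw [b0, Matrix.zero_mul]; exact P.B.zero_mem
  have ne : ∃ q, ∃ b' ∈ P.H z i, ∃ p, b' q p ≠ 0 := by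
    by_contra e
    push Not at e
    exact b0 (Matrix.ext fun q p => e q b hb p)
  obtain ⟨q0, hq0, hmin⟩ := (Finset.univ.filter fun q => ∃ b' ∈ P.H z i, ∃ p, b' q p ≠ 0
    ).exists_min_image ht (by obtain ⟨q, hq⟩ := ne; exact ⟨q, by simpa using hq⟩)
  simp only [Finset.mem_filter, Finset.mem_univ, true_and] at hq0 hmin
  obtain ⟨b1, hb1, p1, e1⟩ := hq0
  have vq0 : P.vt q0 = i := (hb1.2 _ _ e1).2
  have key := span_tri (P := P) (fun q p => P.vt p = z ∧ P.vt q = i ∧ ht q0 ≤ ht q)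
    (fun q _ => ht q) ?_
  · refine mem_of_single fun q p e => ?_
    obtain ⟨s, s1, s2⟩ := mul_ne e
    exact key q p ⟨(hc _ _ s2).1, (hb.2 _ _ s1).2, hmin q ⟨b, hb, s, s1⟩⟩ _
  rintro q p ⟨hp, hq, hle⟩ a
  let W : Submodule F (Pt → F) :=
    { carrier := {x | ∃ b' ∈ P.H z i, (∀ q' p', b' q' p' ≠ 0 → ht q ≤ ht q') ∧ b' q = x}
      add_mem' := by
        rintro _ _ ⟨u, hu, u1, rfl⟩ ⟨v, hv, v1, rfl⟩
        refine ⟨u + v, Submodule.add_mem _ hu hv, fun q' p' e => ?_, rfl⟩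
        by_cases e' : u q' p' = 0
        · exact v1 q' p' (by simpa [e'] using e)
        · exact u1 q' p' e'
      zero_mem' := ⟨0, Submodule.zero_mem _, fun _ _ e => (e rfl).elim, rfl⟩
      smul_mem' := by
        rintro a _ ⟨u, hu, u1, rfl⟩
        obtain ⟨v, hv, v1⟩ := h.scal_mul a hu
        have v2 : ∀ q' p', ht q' ≤ ht q → v q' p' = a * u q' p' := by
          intro q' p' e
          by_contra e'
          obtain ⟨s, s1, s2⟩ := v1 q' p' (by
            rw [Matrix.sub_apply, Matrix.smul_apply, smul_eq_mul]; exact sub_ne_zero.2 e')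
          have := u1 _ _ s1
          omega
        refine ⟨v, hv, fun q' p' e => ?_, funext fun p' => v2 q p' le_rfl⟩
        by_contra e'
        rw [v2 q' p' (by omega)] at e
        exact e' (u1 _ _ (right_ne_zero_of_mul e)) }
  rcases hz W (by
      rintro _ ⟨u, hu, -, rfl⟩ p' e
      by_contra e'
      exact e (hu.2 _ _ e').1) (by
      rintro g hg _ ⟨u, hu, u1, rfl⟩
      refine ⟨u * g, mul_H hu hg, fun q' p' e => ?_, rfl⟩
      obtain ⟨s, s1, -⟩ := mul_ne e
      exact u1 _ _ s1) with hW | hW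
  · exfalso
    obtain ⟨y, hy, y1, y2⟩ := h.sharp' vq0 hq hle
    have m : (y * b1) q ∈ W := by
      refine ⟨y * b1, mul_H hy hb1, fun q' p' e => ?_, rfl⟩
      obtain ⟨s, s1, s2⟩ := mul_ne e
      by_contra e'
      have := (y2 q' s s1 (hmin s ⟨b1, hb1, p', s2⟩) (by omega)).1
      rw [this] at e'
      exact e' le_rfl
    rw [hW, Submodule.mem_bot] at m
    have := congrFun m p1
    rw [mul_one_term q0 fun s s1 s2 => (y2 q s s1 (hmin s ⟨b1, hb1, p1, s2⟩) le_rfl).2] at this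
    exact mul_ne_zero y1 e1 this
  · obtain ⟨u, hu, u1, u2⟩ := hW (Pi.single p a) fun p' e => by
      rw [Pi.single_eq_of_ne]
      rintro rfl
      exact e hp
    refine ⟨u, hu.1, by rw [u2, Pi.single_eq_same], fun q' p' e e' => ?_⟩
    have t1 := u1 _ _ e
    obtain ⟨t2, t3⟩ := hu.2 _ _ e
    refine ⟨⟨t2, t3, by omega⟩, lt_of_le_of_ne t1 fun e'' => ?_⟩
    obtain rfl := h.inj q q' hq t3 e''
    rw [u2] at e
    apply e
    rw [Pi.single_eq_of_ne]
    rintro rfl
    exact e' ⟨rfl, rfl⟩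

/-- The transposed problem. -/
noncomputable def tr (P : Prob k F Pt ι Unit) : Prob k F Pt ι Unit where
  vt := P.vt
  pk := P.pk
  B :=
    { carrier := {b | b.transpose ∈ P.B}
      mul_mem' := fun {a b} ha hb => by
        change (a * b).transpose ∈ P.B
        rw [Matrix.transpose_mul]
        exact P.B.mul_mem hb ha
      add_mem' := fun {a b} ha hb => by
        change (a + b).transpose ∈ P.B
        rw [Matrix.transpose_add]
        exact P.B.add_mem ha hb
      algebraMap_mem' := fun c => by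
        change (algebraMap k (Matrix Pt Pt F) c).transpose ∈ P.B
        rw [Algebra.algebraMap_eq_smul_one, Matrix.transpose_smul, Matrix.transpose_one]
        exact P.B.smul_mem P.B.one_mem c }
  idem i := by
    change (P.e i).transpose ∈ P.B
    have : (P.e i).transpose = P.e i := by
      ext q p
      rw [Matrix.transpose_apply]
      by_cases e : q = p
      · rw [e]
      · rw [P.e_off i e, P.e_off i (Ne.symm e)]
    rw [this]
    exact P.e_mem i
  peak _ _ _ _ _ := rfl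

theorem tr_mem {b : Matrix Pt Pt F} : b ∈ (tr P).B ↔ b.transpose ∈ P.B := Iff.rfl

theorem tr_H {i j : ι} {b : Matrix Pt Pt F} : b ∈ (tr P).H i j ↔ b.transpose ∈ P.H j i :=
  ⟨fun h => ⟨h.1, fun q p e => (h.2 p q e).symm⟩, fun h => ⟨h.1, fun q p e => (h.2 p q e).symm⟩⟩

theorem Fl.tr (h : Fl P i ht) : Fl (tr P) i fun p => - ht p where
  inj p q hp hq e := h.inj p q hp hq (neg_injective e)
  tri b hb q p hp hq e := neg_le_neg (h.tri _ hb p q hq hp e)
  diag b hb p q hp hq := h.diag _ hb p q hp hq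
  onto p hp c := by
    obtain ⟨b, hb, e⟩ := h.onto p hp c
    exact ⟨b.transpose, hb, e⟩
  step p q hp hq e := by
    obtain ⟨b, hb, e1, e2⟩ := h.step q p hq hp (neg_lt_neg_iff.1 e)
    exact ⟨b.transpose, hb, e1, (h.diag b hb p q hp hq).trans e2⟩

theorem Fl.fullr (h : Fl P i ht) {z : ι} (hz : ColSimple P z) {b : Matrix Pt Pt F}
    (hb : b ∈ P.H i z) {c : Matrix Pt Pt F} (hc : P.In z z c) : c * b ∈ P.B := by
  have hz' : RowSimple (GoodA.tr P) z := fun W h1 h2 => hz W h1 fun g hg x hx => by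
    rw [← Matrix.vecMul_transpose]
    exact h2 g.transpose (tr_H.2 hg) x hx
  have := h.tr.fullc hz' (b := b.transpose) (tr_H.2 hb) (c := c.transpose)
    fun q p e => (hc p q e).symm
  rwa [tr_mem, Matrix.transpose_mul, Matrix.transpose_transpose, Matrix.transpose_transpose] at this

end GoodA

end Pool.Agent.MP_bd94e8_al.H89
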